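import Mathlib
import Pool.Agent.N428.TreeCounts
import Pool.Agent.N428.TreeLocal

namespace Pool.Agent.Results.MP_ed556a_co.YBound

open SimpleGraph Finset
open Pool.Agent.N428.TreeCounts Pool.Agent.N428.TreeLocal

/-- The path on five vertices. -/
abbrev pathTree : SimpleGraph (Fin 5) := pathGraph 5

/-- The star `K_{1,4}` with centre `0`. -/
abbrev starTree : SimpleGraph (Fin 5) := starGraph 0

/-- The Y-shaped tree on five vertices: edges `01`, `02`, `03`, `34`. -/
def yTree : SimpleGraph (Fin 5) := fromEdgeSet {s(0, 1), s(0, 2), s(0, 3), s(3, 4)}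

section

variable {V : Type*} [Fintype V] [DecidableEq V] (T : SimpleGraph V) [DecidableRel T.Adj]

/-- degree minus one -/
def xd (v : V) : ℤ := (T.degree v : ℤ) - 1

lemma card_erase_nbr {v c : V} (h : T.Adj v c) :
    (((T.neighborFinset v).erase c).card : ℤ) = xd T v := by
  have hc : c ∈ T.neighborFinset v := (mem_neighborFinset _ _ _).2 h
  rw [Finset.card_erase_of_mem hc, card_neighborFinset_eq_degree, xd]
  have : 1 ≤ T.degree v := by
    rw [← card_neighborFinset_eq_degree]
    exact Finset.card_pos.2 ⟨c, hc⟩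
  omega

lemma y_term {v c : V} (h : T.Adj v c) :
    (((((T.neighborFinset v).erase c).offDiag).card * ((T.neighborFinset c).erase v).card : ℕ) : ℤ)
      = (xd T v * (xd T v - 1)) * xd T c := by
  push_cast
  rw [card_erase_nbr T h.symm, Finset.offDiag_card]
  have h1 := card_erase_nbr T h
  set k := ((T.neighborFinset v).erase c).card with hk
  have : ((k * k - k : ℕ) : ℤ) = (k : ℤ) * k - k := by
    rw [Nat.cast_sub (Nat.le_mul_self k)]
    push_cast
    ring
  rw [this, h1]
  ring

lemma desc_term (v : V) : (((T.degree v).descFactorial 4 : ℕ) : ℤ) =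
    (xd T v + 1) * xd T v * (xd T v - 1) * (xd T v - 2) := by
  unfold xd
  generalize T.degree v = d
  rcases (show d = 0 ∨ d = 1 ∨ d = 2 ∨ ∃ k, d = k + 3 by
    rcases d with _ | _ | _ | k
    · simp
    · simp
    · simp
    · exact Or.inr (Or.inr (Or.inr ⟨k, rfl⟩))) with h | h | h | ⟨k, h⟩
  · subst h; decide
  · subst h; decide
  · subst h; decide
  · subst h
    have : (k + 3).descFactorial 4 = (k + 3 - 3) * ((k + 3 - 2) * ((k + 3 - 1) * ((k + 3 - 0) * 1))) := rfl
    rw [this]
    have e1 : k + 3 - 3 = k := by omega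
    have e2 : k + 3 - 2 = k + 1 := by omega
    have e3 : k + 3 - 1 = k + 2 := by omega
    rw [e1, e2, e3]
    push_cast
    ring

lemma sum_pot : ∑ v, ∑ u ∈ T.neighborFinset v, pot (xd T v) (xd T u) = 0 := by
  have h1 : ∑ v, ∑ u ∈ T.neighborFinset v, pot (xd T v) (xd T u) =
      ∑ v, ∑ u, if T.Adj v u then pot (xd T v) (xd T u) else 0 := by
    refine Finset.sum_congr rfl (fun v _ => ?_)
    rw [← Finset.sum_filter]
    refine Finset.sum_congr ?_ (fun _ _ => rfl)
    ext u
    simp
  have h2 : ∑ v, ∑ u, (if T.Adj v u then pot (xd T v) (xd T u) else 0) =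
      - ∑ v, ∑ u, (if T.Adj v u then pot (xd T v) (xd T u) else 0) := by
    conv_lhs => rw [Finset.sum_comm]
    rw [← Finset.sum_neg_distrib]
    refine Finset.sum_congr rfl (fun v _ => ?_)
    rw [← Finset.sum_neg_distrib]
    refine Finset.sum_congr rfl (fun u _ => ?_)
    by_cases h : T.Adj u v
    · rw [if_pos h, if_pos h.symm, pot_antisymm]
    · rw [if_neg h, if_neg (fun h' => h h'.symm), neg_zero]
  rw [h1]
  linarith

lemma sum_xd (hT : T.IsTree) : ∑ v, (xd T v - 1) = -2 := by
  have h1 := T.sum_degrees_eq_twice_card_edges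
  have h2 := hT.card_edgeFinset
  have h3 : (∑ v, (T.degree v : ℤ)) = 2 * (T.edgeFinset.card : ℤ) := by exact_mod_cast h1
  have h4 : (T.edgeFinset.card : ℤ) + 1 = (Fintype.card V : ℤ) := by exact_mod_cast h2
  have h5 : ∑ v, (xd T v - 1) = ∑ v, (T.degree v : ℤ) - 2 * (Fintype.card V : ℤ) := by
    simp only [xd, Finset.sum_sub_distrib, Finset.sum_const, Finset.card_univ, nsmul_eq_mul,
      mul_one]
    ring
  rw [h5, h3, ← h4]
  ring

end

/-- Every finite tree `T` satisfies `Y(T) ≤ 9 S(T) + P(T) + 6`. -/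
theorem result {V : Type*} [Fintype V] (T : SimpleGraph V) (hT : T.IsTree) :
    T.copyCount yTree ≤ 9 * T.copyCount starTree + T.copyCount pathTree + 6 := by
  classical
  have hY : T.labelledCopyCount yTree = T.copyCount yTree * 2 := by
    rw [labelled_eq, show yTree = Pool.Agent.N428.TreeCounts.yTree from rfl, card_aut_y]
  have hS : T.labelledCopyCount starTree = T.copyCount starTree * 24 := by
    rw [labelled_eq, card_aut_star]
  have hP : T.labelledCopyCount pathTree = T.copyCount pathTree * 2 := by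
    rw [labelled_eq, card_aut_path]
  have hY1 := y_le T
  have hS1 := star_ge T
  have hP1 := path_ge T hT.isAcyclic
  have hY2 : (T.labelledCopyCount yTree : ℤ) ≤
      ∑ v, ∑ c ∈ T.neighborFinset v, (xd T v * (xd T v - 1)) * xd T c := by
    refine le_trans (Nat.cast_le.2 hY1) (le_of_eq ?_)
    rw [Nat.cast_sum]
    refine Finset.sum_congr rfl (fun v _ => ?_)
    rw [Nat.cast_sum]
    refine Finset.sum_congr rfl (fun c hc => ?_)
    exact y_term T ((mem_neighborFinset _ _ _).1 hc)
  have hS2 : ∑ v, (xd T v + 1) * xd T v * (xd T v - 1) * (xd T v - 2) ≤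
      (T.labelledCopyCount starTree : ℤ) := by
    refine le_trans (le_of_eq ?_) (Nat.cast_le.2 hS1)
    rw [Nat.cast_sum]
    exact Finset.sum_congr rfl (fun v _ => (desc_term T v).symm)
  have hP2 : ∑ v, ∑ p ∈ (T.neighborFinset v).offDiag, xd T p.1 * xd T p.2 ≤
      (T.labelledCopyCount pathTree : ℤ) := by
    refine le_trans (le_of_eq ?_) (Nat.cast_le.2 hP1)
    rw [Nat.cast_sum]
    refine Finset.sum_congr rfl (fun v _ => ?_)
    rw [Nat.cast_sum]
    refine Finset.sum_congr rfl (fun p hp => ?_)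
    rw [Finset.mem_offDiag, mem_neighborFinset, mem_neighborFinset] at hp
    push_cast
    rw [card_erase_nbr T hp.1.symm, card_erase_nbr T hp.2.1.symm]
  have hloc : ∀ v, 4 * (xd T v * (xd T v - 1)) * (∑ i ∈ T.neighborFinset v, xd T i)
      - 3 * ((xd T v + 1) * xd T v * (xd T v - 1) * (xd T v - 2))
      - 4 * (∑ p ∈ (T.neighborFinset v).offDiag, xd T p.1 * xd T p.2)
      + 4 * (∑ i ∈ T.neighborFinset v, pot (xd T v) (xd T i)) + 24 * (xd T v - 1) ≤ 0 := by
    intro v
    apply local_ineq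
    · rw [card_neighborFinset_eq_degree, xd]; ring
    · intro i hi
      rw [xd]
      have : 1 ≤ T.degree i := by
        rw [← card_neighborFinset_eq_degree]
        exact Finset.card_pos.2 ⟨v, (mem_neighborFinset _ _ _).2 ((mem_neighborFinset _ _ _).1 hi).symm⟩
      omega
  have hsum := Finset.sum_nonpos (fun v (_ : v ∈ (Finset.univ : Finset V)) => hloc v)
  rw [Finset.sum_add_distrib, Finset.sum_add_distrib, Finset.sum_sub_distrib,
    Finset.sum_sub_distrib, ← Finset.mul_sum, ← Finset.mul_sum, ← Finset.mul_sum,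
    ← Finset.mul_sum, sum_pot, sum_xd T hT] at hsum
  have hY3 : ∑ v, ∑ c ∈ T.neighborFinset v, (xd T v * (xd T v - 1)) * xd T c * 4 =
      ∑ v, 4 * (xd T v * (xd T v - 1)) * (∑ i ∈ T.neighborFinset v, xd T i) := by
    refine Finset.sum_congr rfl (fun v _ => ?_)
    rw [Finset.mul_sum]
    exact Finset.sum_congr rfl (fun c _ => by ring)
  have hY4 : ∑ v, ∑ c ∈ T.neighborFinset v, (xd T v * (xd T v - 1)) * xd T c * 4 =
      (∑ v, ∑ c ∈ T.neighborFinset v, (xd T v * (xd T v - 1)) * xd T c) * 4 := by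
    rw [Finset.sum_mul]
    exact Finset.sum_congr rfl (fun v _ => by rw [Finset.sum_mul])
  have hY5 : ((T.copyCount yTree * 2 : ℕ) : ℤ) ≤ _ := hY ▸ hY2
  have hS5 : _ ≤ ((T.copyCount starTree * 24 : ℕ) : ℤ) := hS ▸ hS2
  have hP5 : _ ≤ ((T.copyCount pathTree * 2 : ℕ) : ℤ) := hP ▸ hP2
  push_cast at hY5 hS5 hP5
  have : (T.copyCount yTree : ℤ) ≤ 9 * T.copyCount starTree + T.copyCount pathTree + 6 := by
    linarith
  exact_mod_cast this

end Pool.Agent.Results.MP_ed556a_co.YBound
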